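import Mathlib

/-!
# MP_2f9b3f_lc : an extreme point of a marginal-model polytope with contextual entropies

Variables `A, B, C, D, D', D''` (numbered `0, ..., 5`), the scenario with facets `{A, C, D}`,
`{A, B}`, `{B, C}`, `{D, D'}`, `{D', D''}`, `{D'', D}`. The variables `D, D', D''` are uniform on
four values, `D = D'`, `D' = D''` but `D = D'' + 1`; this cycle forces uniformity. Moreover
`D = (A, C)`, while `A = B` and `B = C`, so that `h(A,B) + h(B,C) = 2 log 2`, which is smaller than
`h(B) + h(A,C) = 3 log 2`.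
-/

namespace Pool.Agent.Results.MP_2f9b3f_lc.ExtremeContextual

/-- A marginal scenario on `{0, ..., n-1}`: a family of subsets closed under taking subsets and
containing the empty set and all singletons. -/
def IsScenario {n : ℕ} (M : Set (Finset (Fin n))) : Prop :=
  ∅ ∈ M ∧ (∀ i, {i} ∈ M) ∧ ∀ S ∈ M, ∀ T, T ⊆ S → T ∈ M

/-- The joint outcomes `O_S` of the variables in `S`, where variable `i` has outcome set `O i`. -/
abbrev Outcomes {n : ℕ} (O : Fin n → Type) (S : Finset (Fin n)) : Type := (i : S) → O i

/-- The restriction of a joint outcome to a subset of the variables. -/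
def restr {n : ℕ} {O : Fin n → Type} {S T : Finset (Fin n)} (h : S ⊆ T) (x : Outcomes O T) :
    Outcomes O S := fun i => x ⟨i, h i.2⟩

/-- The polytope `P(M, O)` of marginal models: families of probability distributions `p_S` on
`O_S`, for `S` in `M`, consistent under marginalisation. -/
def polytope {n : ℕ} (M : Set (Finset (Fin n))) (O : Fin n → Type) [∀ i, Fintype (O i)]
    [∀ i, DecidableEq (O i)] : Set ((S : M) → Outcomes O S → ℝ) :=
  {p | (∀ S x, 0 ≤ p S x) ∧ (∀ S, ∑ x, p S x = 1) ∧
    ∀ (S T : M) (h : (S : Finset (Fin n)) ⊆ T) (y : Outcomes O S),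
      ∑ x : Outcomes O T, (if restr h x = y then p T x else 0) = p S y}

/-- The entropy function (natural logarithm) of a family of distributions. -/
noncomputable def entropy {n : ℕ} {M : Set (Finset (Fin n))} {O : Fin n → Type}
    [∀ i, Fintype (O i)] [∀ i, DecidableEq (O i)] (p : (S : M) → Outcomes O S → ℝ) (S : M) : ℝ :=
  ∑ x : Outcomes O S, -(p S x * Real.log (p S x))

/-- A polymatroid on `{0, ..., n-1}`. -/
def IsPolymatroid {n : ℕ} (f : Finset (Fin n) → ℝ) : Prop :=
  f ∅ = 0 ∧ (∀ S T, S ⊆ T → f S ≤ f T) ∧ ∀ S T, f (S ∪ T) + f (S ∩ T) ≤ f S + f T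

/-- A function on `M` is non-contextual if it is the restriction of a polymatroid. -/
def NonContextual {n : ℕ} {M : Set (Finset (Fin n))} (g : M → ℝ) : Prop :=
  ∃ f : Finset (Fin n) → ℝ, IsPolymatroid f ∧ ∀ S : M, g S = f S

/-! ### The example -/

/-- The scenario. -/
def scen : Set (Finset (Fin 6)) :=
  {S | S ⊆ {0, 2, 3} ∨ S ⊆ {0, 1} ∨ S ⊆ {1, 2} ∨ S ⊆ {3, 4} ∨ S ⊆ {4, 5} ∨ S ⊆ {3, 5}}

/-- The outcome sets. -/
abbrev OO : Fin 6 → Type := fun _ => Fin 4

/-- The value of variable `i` in the context `S` when the seed is `w`. -/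
def X (S : Finset (Fin 6)) (i : Fin 6) (w : Fin 4) : Fin 4 :=
  if i = 0 then w / 2
  else if i = 1 then (if 2 ∈ S then w % 2 else w / 2)
  else if i = 2 then w % 2
  else if i = 3 then (if 5 ∈ S then w + 1 else w)
  else w

/-- The joint value of the variables of `S`. -/
def XX (S : Finset (Fin 6)) (w : Fin 4) : Outcomes OO S := fun i => X S i w

/-- The marginal model. -/
noncomputable def pt : (S : scen) → Outcomes OO S → ℝ :=
  fun S x => ∑ w : Fin 4, if XX S w = x then (1 / 4 : ℝ) else 0

theorem scen_isScenario : IsScenario scen := by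
  refine ⟨Or.inl (Finset.empty_subset _), ?_, ?_⟩
  · intro i
    have h : ∀ i : Fin 6, ({i} : Finset (Fin 6)) ⊆ {0, 2, 3} ∨ ({i} : Finset (Fin 6)) ⊆ {0, 1} ∨
        ({i} : Finset (Fin 6)) ⊆ {1, 2} ∨ ({i} : Finset (Fin 6)) ⊆ {3, 4} ∨
        ({i} : Finset (Fin 6)) ⊆ {4, 5} ∨ ({i} : Finset (Fin 6)) ⊆ {3, 5} := by decide
    exact h i
  · rintro S hS T hT
    rcases hS with h | h | h | h | h | h
    · exact Or.inl (hT.trans h)
    · exact Or.inr (Or.inl (hT.trans h))
    · exact Or.inr (Or.inr (Or.inl (hT.trans h)))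
    · exact Or.inr (Or.inr (Or.inr (Or.inl (hT.trans h))))
    · exact Or.inr (Or.inr (Or.inr (Or.inr (Or.inl (hT.trans h)))))
    · exact Or.inr (Or.inr (Or.inr (Or.inr (Or.inr (hT.trans h)))))

theorem exists_perm : ∀ S T : Finset (Fin 6),
    (T ⊆ {0, 2, 3} ∨ T ⊆ {0, 1} ∨ T ⊆ {1, 2} ∨ T ⊆ {3, 4} ∨ T ⊆ {4, 5} ∨ T ⊆ {3, 5}) →
    S ⊆ T → ∃ t ∈ [(fun w => w : Fin 4 → Fin 4), (fun w => w + 1), (fun w => w + 3),
      (fun w => 2 * w + w / 2)], (∀ a b, t a = t b → a = b) ∧ ∀ w, ∀ i ∈ S, X T i w = X S i (t w) := by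
  decide +kernel

theorem pt_mem : pt ∈ polytope scen OO := by
  refine ⟨?_, ?_, ?_⟩
  · intro S x
    apply Finset.sum_nonneg
    intro w _
    split_ifs <;> norm_num
  · intro S
    unfold pt
    rw [Finset.sum_comm]
    simp
  · intro S T h y
    obtain ⟨t, -, ht, hX⟩ := exists_perm S T T.2 h
    have htb : Function.Bijective t := (Finite.injective_iff_bijective).mp (fun a b => ht a b)
    have hre : ∀ w, restr h (XX T w) = XX S (t w) := by
      intro w
      funext i
      exact hX w i i.2
    have h1 : ∀ x : Outcomes OO T, (if restr h x = y then pt T x else 0) =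
        ∑ w, if XX T w = x then (if restr h (XX T w) = y then (1 / 4 : ℝ) else 0) else 0 := by
      intro x
      unfold pt
      split_ifs with hx
      · apply Finset.sum_congr rfl
        intro w _
        by_cases hw : XX T w = x
        · rw [if_pos hw, if_pos hw, hw, if_pos hx]
        · rw [if_neg hw, if_neg hw]
      · symm
        apply Finset.sum_eq_zero
        intro w _
        by_cases hw : XX T w = x
        · rw [if_pos hw, hw, if_neg hx]
        · rw [if_neg hw]
    rw [Finset.sum_congr rfl (fun x _ => h1 x), Finset.sum_comm]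
    simp only [Finset.sum_ite_eq, Finset.mem_univ, if_true]
    unfold pt
    simp only [hre]
    exact Function.Bijective.sum_comp htb (fun w => if XX S w = y then (1 / 4 : ℝ) else 0)

/-- The support condition for a point of the polytope. -/
def Supp (q : (S : scen) → Outcomes OO S → ℝ) : Prop :=
  ∀ (S : scen) (x : Outcomes OO S), (∀ w, XX S w ≠ x) → q S x = 0

theorem pt_zero (S : scen) (x : Outcomes OO S) (h : ∀ w, XX S w ≠ x) : pt S x = 0 := by
  apply Finset.sum_eq_zero
  intro w _
  rw [if_neg (h w)]

/-- If on the support the outcome of `T` is determined by the outcome of `S ⊆ T`, the values on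
`S` and `T` agree. -/
theorem transport {q : (S : scen) → Outcomes OO S → ℝ} (hq : q ∈ polytope scen OO) (hs : Supp q)
    (S T : scen) (h : (S : Finset (Fin 6)) ⊆ T)
    (hdet : ∀ w v, (∀ i ∈ (S : Finset (Fin 6)), X T i w = X T i v) →
      ∀ i ∈ (T : Finset (Fin 6)), X T i w = X T i v) (w : Fin 4) :
    q S (restr h (XX T w)) = q T (XX T w) := by
  rw [← hq.2.2 S T h]
  rw [Finset.sum_eq_single (XX T w)]
  · rw [if_pos rfl]
  · intro x _ hx
    split_ifs with hr
    · apply hs
      intro v hv
      apply hx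
      rw [← hv] at hr ⊢
      funext i
      apply hdet v w ?_ i i.2
      intro i hi
      exact congrFun hr ⟨i, hi⟩
    · rfl
  · intro h
    exact absurd (Finset.mem_univ _) h

theorem determine {q : (S : scen) → Outcomes OO S → ℝ} (hq : q ∈ polytope scen OO) (hs : Supp q)
    (S T : scen) (h : (S : Finset (Fin 6)) ⊆ T)
    (hdet : ∀ w v, (∀ i ∈ (S : Finset (Fin 6)), X T i w = X T i v) →
      ∀ i ∈ (T : Finset (Fin 6)), X T i w = X T i v) (hS : q S = pt S) : q T = pt T := by
  funext x
  by_cases hx : ∀ w, XX T w ≠ x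
  · rw [hs T x hx, pt_zero T x hx]
  · push Not at hx
    obtain ⟨w, rfl⟩ := hx
    rw [← transport hq hs S T h hdet w, ← transport pt_mem pt_zero S T h hdet w, hS]

theorem descend {q : (S : scen) → Outcomes OO S → ℝ} (hq : q ∈ polytope scen OO)
    (S T : scen) (h : (S : Finset (Fin 6)) ⊆ T) (hT : q T = pt T) : q S = pt S := by
  funext y
  rw [← hq.2.2 S T h y, ← pt_mem.2.2 S T h y, hT]

/-- The facets as members of the scenario. -/
def fACD : scen := ⟨{0, 2, 3}, Or.inl (Finset.Subset.refl _)⟩
def fAB : scen := ⟨{0, 1}, Or.inr (Or.inl (Finset.Subset.refl _))⟩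
def fBC : scen := ⟨{1, 2}, Or.inr (Or.inr (Or.inl (Finset.Subset.refl _)))⟩
def fDE : scen := ⟨{3, 4}, Or.inr (Or.inr (Or.inr (Or.inl (Finset.Subset.refl _))))⟩
def fEF : scen := ⟨{4, 5}, Or.inr (Or.inr (Or.inr (Or.inr (Or.inl (Finset.Subset.refl _)))))⟩
def fDF : scen := ⟨{3, 5}, Or.inr (Or.inr (Or.inr (Or.inr (Or.inr (Finset.Subset.refl _)))))⟩
def sg (i : Fin 6) : scen := ⟨{i}, scen_isScenario.2.1 i⟩

/-- A constant outcome on a singleton. -/
def cst (i : Fin 6) (d : Fin 4) : Outcomes OO (sg i : scen) := fun _ => d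

theorem restr_eq (i : Fin 6) (T : scen) (h : ((sg i : scen) : Finset (Fin 6)) ⊆ T)
    (w d : Fin 4) (hd : X T i w = d) :
    restr (O := OO) (S := (sg i : scen)) (T := (T : scen)) h (XX T w) = cst i d := by
  funext j
  have hj : (j : Fin 6) = i := Finset.mem_singleton.mp j.2
  show X T j w = d
  rw [hj, hd]

theorem q_uniform {q : (S : scen) → Outcomes OO S → ℝ} (hq : q ∈ polytope scen OO) (hs : Supp q) :
    ∀ d, q (sg 3) (cst 3 d) = q (sg 3) (cst 3 (d + 1)) := by
  intro d
  have h1 := transport hq hs (sg 3) fDE (by decide) (by decide) d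
  have h2 := transport hq hs (sg 4) fDE (by decide) (by decide) d
  have h3 := transport hq hs (sg 4) fEF (by decide) (by decide) d
  have h4 := transport hq hs (sg 5) fEF (by decide) (by decide) d
  have h5 := transport hq hs (sg 5) fDF (by decide) (by decide) d
  have h6 := transport hq hs (sg 3) fDF (by decide) (by decide) d
  rw [restr_eq 3 fDE _ d d (by clear * -; revert d; decide)] at h1
  rw [restr_eq 4 fDE _ d d (by clear * -; revert d; decide)] at h2
  rw [restr_eq 4 fEF _ d d (by clear * -; revert d; decide)] at h3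
  rw [restr_eq 5 fEF _ d d (by clear * -; revert d; decide)] at h4
  rw [restr_eq 5 fDF _ d d (by clear * -; revert d; decide)] at h5
  rw [restr_eq 3 fDF _ d (d + 1) (by clear * -; revert d; decide)] at h6
  rw [h1, h6, ← h5, h4, ← h3, h2]

theorem q_three {q : (S : scen) → Outcomes OO S → ℝ} (hq : q ∈ polytope scen OO) (hs : Supp q)
    (x : Outcomes OO (sg 3 : scen)) : q (sg 3) x = 1 / 4 := by
  have hu := q_uniform hq hs
  have hall : ∀ d, q (sg 3) (cst 3 d) = q (sg 3) (cst 3 0) := by
    intro d
    fin_cases d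
    · rfl
    · exact (hu 0).symm
    · exact ((hu 0).trans (hu 1)).symm
    · exact (((hu 0).trans (hu 1)).trans (hu 2)).symm
  have hx : ∀ y : Outcomes OO (sg 3 : scen), q (sg 3) y = q (sg 3) (cst 3 0) := by
    intro y
    have : y = cst 3 (y ⟨3, Finset.mem_singleton_self 3⟩) := by
      funext j
      have hj : j = ⟨3, Finset.mem_singleton_self 3⟩ := Subtype.ext (Finset.mem_singleton.mp j.2)
      rw [hj]
      rfl
    rw [this]
    exact hall _
  have hsum := hq.2.1 (sg 3)
  rw [Finset.sum_congr rfl (fun y _ => hx y), Finset.sum_const, Finset.card_univ] at hsum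
  have hcard : Fintype.card (Outcomes OO ((sg 3 : scen) : Finset (Fin 6))) = 4 := by
    rw [Fintype.card_pi]
    show ∏ _i : ((sg 3 : scen) : Finset (Fin 6)), Fintype.card (Fin 4) = 4
    rw [Finset.prod_const]
    have : (Finset.univ : Finset ((sg 3 : scen) : Finset (Fin 6))).card = 1 := by decide
    rw [this]
    rfl
  rw [hcard] at hsum
  rw [hx x]
  simp only [nsmul_eq_mul] at hsum
  push_cast at hsum
  linarith

theorem q_eq {q : (S : scen) → Outcomes OO S → ℝ} (hq : q ∈ polytope scen OO) (hs : Supp q) :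
    q = pt := by
  have h3 : q (sg 3) = pt (sg 3) := by
    funext x
    rw [q_three hq hs, q_three pt_mem pt_zero]
  have hACD : q fACD = pt fACD := determine hq hs (sg 3) fACD (by decide) (by decide) h3
  have h0 : q (sg 0) = pt (sg 0) := descend hq (sg 0) fACD (by decide) hACD
  have h2 : q (sg 2) = pt (sg 2) := descend hq (sg 2) fACD (by decide) hACD
  have hAB : q fAB = pt fAB := determine hq hs (sg 0) fAB (by decide) (by decide) h0
  have hBC : q fBC = pt fBC := determine hq hs (sg 2) fBC (by decide) (by decide) h2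
  have hDE : q fDE = pt fDE := determine hq hs (sg 3) fDE (by decide) (by decide) h3
  have hDF : q fDF = pt fDF := determine hq hs (sg 3) fDF (by decide) (by decide) h3
  have h4 : q (sg 4) = pt (sg 4) := descend hq (sg 4) fDE (by decide) hDE
  have hEF : q fEF = pt fEF := determine hq hs (sg 4) fEF (by decide) (by decide) h4
  funext S
  rcases S.2 with h | h | h | h | h | h
  · exact descend hq S fACD h hACD
  · exact descend hq S fAB h hAB
  · exact descend hq S fBC h hBC
  · exact descend hq S fDE h hDE
  · exact descend hq S fEF h hEF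
  · exact descend hq S fDF h hDF

theorem pt_extreme : pt ∈ (polytope scen OO).extremePoints ℝ := by
  rw [mem_extremePoints_iff_left]
  refine ⟨pt_mem, ?_⟩
  intro q hq r hr hseg
  apply q_eq hq
  intro S x hx
  obtain ⟨a, b, ha, hb, hab, hpt⟩ := hseg
  have h1 := congrFun (congrFun hpt S) x
  rw [pt_zero S x hx] at h1
  simp only [Pi.add_apply, Pi.smul_apply, smul_eq_mul] at h1
  have h2 := hq.1 S x
  have h3 := hr.1 S x
  have h4 : 0 ≤ b * r S x := mul_nonneg hb.le h3
  have h5 : 0 ≤ a * q S x := mul_nonneg ha.le h2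
  have h6 : a * q S x = 0 := by linarith
  rcases mul_eq_zero.mp h6 with h | h
  · exact absurd h ha.ne'
  · exact h

/-- The entropy of the example in a context where each attained value has `c` seeds. -/
theorem entropy_pt (S : scen) (c : ℕ)
    (hc : ∀ w, (Finset.univ.filter fun v => XX S v = XX S w).card = c) :
    entropy pt S = - Real.log (c / 4) := by
  unfold entropy
  have h1 : ∀ x : Outcomes OO S, -(pt S x * Real.log (pt S x)) =
      ∑ w, if XX S w = x then -((1 / 4 : ℝ) * Real.log (c / 4)) else 0 := by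
    intro x
    by_cases hx : ∀ w, XX S w ≠ x
    · rw [pt_zero S x hx, Finset.sum_eq_zero]
      · simp
      · intro w _
        rw [if_neg (hx w)]
    · push Not at hx
      obtain ⟨w, rfl⟩ := hx
      have h2 : pt S (XX S w) = c / 4 := by
        unfold pt
        rw [← Finset.sum_filter, Finset.sum_const, hc w]
        simp only [nsmul_eq_mul]
        ring
      rw [h2, ← Finset.sum_filter, Finset.sum_const, hc w]
      simp only [nsmul_eq_mul]
      ring
  rw [Finset.sum_congr rfl (fun x _ => h1 x), Finset.sum_comm]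
  simp

theorem card_fiber (S : scen) (w : Fin 4) :
    (Finset.univ.filter fun v => XX S v = XX S w).card =
      (Finset.univ.filter fun v => ∀ i ∈ (S : Finset (Fin 6)), X S i v = X S i w).card := by
  congr 1
  ext v
  simp only [Finset.mem_filter, Finset.mem_univ, true_and]
  constructor
  · intro h i hi
    exact congrFun h ⟨i, hi⟩
  · intro h
    funext i
    exact h i i.2

/-- The pair `{A, C}` as a member of the scenario. -/
def fAC : scen := ⟨{0, 2}, Or.inl (by decide)⟩

theorem contextual : ¬ NonContextual (entropy pt) := by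
  rintro ⟨f, ⟨f0, fmono, fsub⟩, hf⟩
  have hB : entropy pt (sg 1) = - Real.log ((2 : ℕ) / 4) := by
    apply entropy_pt
    intro w
    rw [card_fiber]
    revert w
    decide
  have hAB : entropy pt fAB = - Real.log ((2 : ℕ) / 4) := by
    apply entropy_pt
    intro w
    rw [card_fiber]
    revert w
    decide
  have hBC : entropy pt fBC = - Real.log ((2 : ℕ) / 4) := by
    apply entropy_pt
    intro w
    rw [card_fiber]
    revert w
    decide
  have hAC : entropy pt fAC = - Real.log ((1 : ℕ) / 4) := by
    apply entropy_pt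
    intro w
    rw [card_fiber]
    revert w
    decide
  have l2 : Real.log (((2 : ℕ) : ℝ) / 4) = - Real.log 2 := by
    rw [← Real.log_inv]
    norm_num
  have l4 : Real.log (((1 : ℕ) : ℝ) / 4) = - (2 * Real.log 2) := by
    have : (((1 : ℕ) : ℝ) / 4) = (2 ^ 2)⁻¹ := by norm_num
    rw [this, Real.log_inv, Real.log_pow]
    norm_num
  rw [hf, l2, neg_neg] at hB hAB hBC
  rw [hf, l4, neg_neg] at hAC
  have h := fsub (fAB : scen) (fBC : scen)
  have e1 : ((fAB : scen) : Finset (Fin 6)) ∪ ((fBC : scen) : Finset (Fin 6)) = {0, 1, 2} := by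
    decide
  have e2 : ((fAB : scen) : Finset (Fin 6)) ∩ ((fBC : scen) : Finset (Fin 6)) =
      ((sg 1 : scen) : Finset (Fin 6)) := by
    decide
  rw [e1, e2] at h
  have h2 := fmono (fAC : scen) {0, 1, 2} (by decide)
  have hl : 0 < Real.log 2 := Real.log_pos (by norm_num)
  linarith

/-- **Main result (negative answer).** There are a marginal scenario `M` on six variables and an
extreme point of the polytope of marginal models on `M` with four outcomes for each variable, whose
entropy function is not the restriction of any polymatroid on the six variables. -/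
theorem result : ∃ M : Set (Finset (Fin 6)), IsScenario M ∧
    ∃ p ∈ (polytope M (fun _ => Fin 4)).extremePoints ℝ, ¬ NonContextual (entropy p) :=
  ⟨scen, scen_isScenario, pt, pt_extreme, contextual⟩

end Pool.Agent.Results.MP_2f9b3f_lc.ExtremeContextual
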